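import Pool.Agent.R841.DPTEx

set_option autoImplicit false

/-!
MP_9a8b60_mp, Q1 (negative answer): the modified separable De Palma-Trevisan quantity can exceed
the modified general one. Definitions are in `Pool.Agent.R841.DPTDefs`.
-/

open Matrix
open Pool.Agent.R841.DPT

namespace Pool.Agent.Results.MP_9a8b60_mp.SeparableExceedsGeneral

/-- There are `d`, `N`, Hermitian matrices `H₁, …, H_N` and states `ρ`, `σ` on `ℂ^d` with
`W̃_sep(ρ, σ) > W̃(ρ, σ)` (for either reading `sw` of the partial trace convention);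
in fact `d = 4`, `N = 2` work and the difference is at least `3/4`. -/
theorem result :
    ∃ (H : Fin 2 → Matrix (Fin 4) (Fin 4) ℂ) (ρ σ : Matrix (Fin 4) (Fin 4) ℂ),
      (∀ n, (H n).IsHermitian) ∧ IsState ρ ∧ IsState σ ∧
      ∀ sw : Bool, Wmod sw H ρ σ + 3 / 4 ≤ WsepMod sw H ρ σ := by
  refine ⟨Hex, rhoE, sigE, Hex_herm, rhoE_state, sigE_state, fun sw => ?_⟩
  have h1 := Wmod_le
  have h2 := WsepMod_ge
  cases sw
  · linarith
  · rw [Wmod_swap, WsepMod_swap]; linarith

end Pool.Agent.Results.MP_9a8b60_mp.SeparableExceedsGeneral
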